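import Mathlib

/-!
# A compact space cleavable over an ordinal but not embeddable in it
-/

set_option autoImplicit false

open Set Topology Filter Ordinal

namespace Pool.Agent.R818.Cleave

/-- `X` is cleavable over `Y`. -/
def CleavableOver (X Y : Type*) [TopologicalSpace X] [TopologicalSpace Y] : Prop :=
  ∀ A : Set X, ∃ f : X → Y, Continuous f ∧ f ⁻¹' (f '' A) = A

/-- the ordinals at most `ω₁` -/
abbrev W : Type 1 := Set.Iic (ω₁ : Ordinal.{0})

/-- the one-point compactification of a discrete sum of copies of `ω₁ + 1` -/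
abbrev K : Type 1 := OnePoint (ℕ × W)

instance : CompactSpace W := by
  have : IsCompact (Set.Iic (ω₁ : Ordinal.{0})) := by
    rw [← Set.Icc_bot]
    exact isCompact_Icc
  exact isCompact_iff_compactSpace.1 this

/-- the big ordinal -/
noncomputable def Om : Ordinal.{0} := ω₁ * ω

/-- the position in the ordinal -/
noncomputable def pos (p : ℕ × W) : Ordinal.{0} := ω₁ * (p.1 : Ordinal.{0}) + (1 + p.2.1)

lemma pos_gt (p : ℕ × W) : ω₁ * (p.1 : Ordinal.{0}) < pos p := by
  unfold pos
  conv_lhs => rw [← add_zero (ω₁ * (p.1 : Ordinal.{0}))]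
  apply (add_lt_add_iff_left _).2
  exact lt_of_lt_of_le zero_lt_one (le_add_right le_rfl)

lemma pos_le (p : ℕ × W) : pos p ≤ ω₁ * ((p.1 + 1 : ℕ) : Ordinal.{0}) := by
  unfold pos
  have h1 : (1 : Ordinal.{0}) + p.2.1 ≤ ω₁ := by
    calc (1 : Ordinal.{0}) + p.2.1 ≤ 1 + ω₁ := (add_le_add_iff_left _).2 p.2.2
      _ = ω₁ := one_add_of_omega0_le omega0_lt_omega_one.le
  rw [Nat.cast_add, Nat.cast_one, mul_add_one]
  exact (add_le_add_iff_left _).2 h1

lemma pos_lt (p : ℕ × W) : pos p < Om := by
  refine (pos_le p).trans_lt ?_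
  unfold Om
  exact (mul_lt_mul_iff_right₀ (omega_pos 1)).2 (natCast_lt_omega0 _)

lemma pos_injective : Function.Injective pos := by
  have key : ∀ p q : ℕ × W, p.1 < q.1 → pos p < pos q := by
    intro p q h
    refine (pos_le p).trans_lt (lt_of_le_of_lt ?_ (pos_gt q))
    exact mul_le_mul_right (by exact_mod_cast h) _
  intro p q hpq
  rcases lt_trichotomy p.1 q.1 with h | h | h
  · exact absurd hpq (key p q h).ne
  · have h2 : (1 : Ordinal.{0}) + p.2.1 = 1 + q.2.1 := by
      unfold pos at hpq
      rw [h] at hpq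
      exact add_left_cancel hpq
    exact Prod.ext h (Subtype.ext (add_left_cancel h2))
  · exact absurd hpq (key q p h).ne'

lemma continuous_add_left (c : Ordinal.{0}) : Continuous (fun x : Ordinal.{0} => c + x) :=
  (isNormal_add_right c).continuous

lemma Om_pos : 0 < Om := lt_of_le_of_lt zero_le (pos_lt (0, ⟨0, Set.mem_Iic.2 zero_le⟩))

/-- the position, with the point at infinity -/
noncomputable def pos' (x : K) : Ordinal.{0} := OnePoint.elim x Om pos

lemma pos'_coe (p : ℕ × W) : pos' (p : K) = pos p := rfl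

lemma pos'_infty : pos' OnePoint.infty = Om := rfl

lemma pos'_pos (x : K) : 0 < pos' x := by
  induction x using OnePoint.rec with
  | infty => exact Om_pos
  | coe p => exact lt_of_le_of_lt zero_le (pos_gt p)

lemma pos'_le (x : K) : pos' x ≤ Om := by
  induction x using OnePoint.rec with
  | infty => exact le_rfl
  | coe p => exact (pos_lt p).le

lemma pos'_injective : Function.Injective pos' := by
  intro x y h
  induction x using OnePoint.rec with
  | infty =>
    induction y using OnePoint.rec with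
    | infty => rfl
    | coe q => exact absurd h.symm (pos_lt q).ne
  | coe p =>
    induction y using OnePoint.rec with
    | infty => exact absurd h (pos_lt p).ne
    | coe q => exact congrArg _ (pos_injective h)

lemma continuous_pos : Continuous pos := by
  rw [continuous_prod_of_discrete_left]
  intro n
  exact (continuous_add_left (ω₁ * (n : Ordinal.{0}))).comp
    ((continuous_add_left 1).comp (continuous_subtype_val (p := fun x => x ∈ Set.Iic ω₁)))

lemma isClosed_isCompact_lt (n : ℕ) : IsClosed {p : ℕ × W | p.1 < n} ∧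
    IsCompact {p : ℕ × W | p.1 < n} := by
  have h : {p : ℕ × W | p.1 < n} = (Set.Iio n) ×ˢ (univ : Set W) := by
    ext p
    simp
  rw [h]
  exact ⟨(isClosed_discrete _).prod isClosed_univ,
    (Set.finite_Iio n).isCompact.prod isCompact_univ⟩

lemma continuous_pos' : Continuous pos' := by
  rw [OnePoint.continuous_iff]
  refine ⟨?_, continuous_pos⟩
  change Tendsto pos _ (𝓝 Om)
  rw [(SuccOrder.hasBasis_nhds_Ioc_of_exists_lt (a := Om) ⟨0, Om_pos⟩).tendsto_right_iff]
  intro b hb
  obtain ⟨c, hc, hbc⟩ := (lt_mul_iff_of_isSuccLimit isSuccLimit_omega0).1 hb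
  obtain ⟨n, rfl⟩ := lt_omega0.1 hc
  have h1 := (isClosed_isCompact_lt n).2.compl_mem_coclosedCompact_of_isClosed
    (isClosed_isCompact_lt n).1
  filter_upwards [h1] with p hp
  have hp' : n ≤ p.1 := not_lt.1 hp
  refine ⟨?_, (pos_lt p).le⟩
  refine hbc.trans (lt_of_le_of_lt ?_ (pos_gt p))
  exact mul_le_mul_right (by exact_mod_cast hp') _

/-- the ordinal -/
noncomputable def lam : Ordinal.{0} := Om + Om + 1

lemma omega_one_lt_lam : ω₁ < lam := by
  have h1 : ω₁ * (1 : Ordinal.{0}) < Om := by
    unfold Om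
    exact (mul_lt_mul_iff_right₀ (omega_pos 1)).2 one_lt_omega0
  rw [mul_one] at h1
  unfold lam
  exact h1.trans_le ((le_add_right le_rfl).trans (le_add_right le_rfl))

/-- the base -/
noncomputable def base (b : Bool) : Ordinal.{0} := if b then Om else 0

/-- the embedding of two copies of `K` -/
noncomputable def emb (p : Bool × K) : Set.Iio lam := ⟨base p.1 + pos' p.2, by
  change base p.1 + pos' p.2 < lam
  unfold lam
  rw [← Order.succ_eq_add_one, Order.lt_succ_iff]
  apply add_le_add _ (pos'_le _)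
  unfold base
  split_ifs
  · exact le_rfl
  · exact zero_le⟩

lemma continuous_emb : Continuous emb := by
  apply Continuous.subtype_mk
  rw [continuous_prod_of_discrete_left]
  intro b
  exact (continuous_add_left (base b)).comp continuous_pos'

lemma emb_injective : Function.Injective emb := by
  have key : ∀ x y : K, base false + pos' x ≠ base true + pos' y := by
    intro x y h
    have h1 : pos' x = Om + pos' y := by simpa [base] using h
    have h2 : Om < Om + pos' y := by
      conv_lhs => rw [← add_zero Om]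
      exact (add_lt_add_iff_left _).2 (pos'_pos y)
    exact absurd (pos'_le x) (not_le.2 (h1 ▸ h2))
  rintro ⟨b, x⟩ ⟨c, y⟩ h
  have h' : base b + pos' x = base c + pos' y := congrArg Subtype.val h
  rcases b with _ | _ <;> rcases c with _ | _
  · exact Prod.ext rfl (pos'_injective (add_left_cancel h'))
  · exact absurd h' (key x y)
  · exact absurd h'.symm (key y x)
  · exact Prod.ext rfl (pos'_injective (add_left_cancel h'))

/-- three copies of `K` -/
abbrev X : Type 1 := Fin 3 × K

/-- interleaving -/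
def shift (k : Fin 3) (p : ℕ × W) : ℕ × W := (3 * p.1 + k, p.2)

lemma continuous_shift (k : Fin 3) : Continuous (shift k) := by
  unfold shift
  fun_prop

lemma continuous_map_shift (k : Fin 3) : Continuous (OnePoint.map (shift k)) := by
  apply OnePoint.continuous_map (continuous_shift k)
  rw [hasBasis_coclosedCompact.tendsto_right_iff]
  rintro s ⟨-, hs⟩
  -- a compact set meets finitely many levels
  obtain ⟨n, hn⟩ : ∃ n : ℕ, ∀ p ∈ s, p.1 < n := by
    have h1 : (Prod.fst '' s).Finite := (hs.image continuous_fst).finite_of_discrete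
    obtain ⟨n, hn⟩ := h1.bddAbove
    exact ⟨n + 1, fun p hp => Nat.lt_succ_of_le (hn ⟨p, hp, rfl⟩)⟩
  have h1 := (isClosed_isCompact_lt n).2.compl_mem_coclosedCompact_of_isClosed
    (isClosed_isCompact_lt n).1
  filter_upwards [h1] with p hp hps
  have hp' : n ≤ p.1 := not_lt.1 hp
  have h2 : 3 * p.1 + (k : ℕ) < n := hn _ hps
  omega

lemma cleavable : CleavableOver X (Set.Iio lam) := by
  classical
  intro A
  let m : Fin 3 → Bool := fun k => decide ((k, (OnePoint.infty : K)) ∈ A)
  let f : X → Set.Iio lam := fun p => emb (m p.1, OnePoint.map (shift p.1) p.2)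
  refine ⟨f, ?_, ?_⟩
  · rw [continuous_prod_of_discrete_left]
    intro k
    have h1 : Continuous (fun x : K => ((m k, OnePoint.map (shift k) x) : Bool × K)) :=
      continuous_const.prodMk (continuous_map_shift k)
    exact continuous_emb.comp h1
  · apply Subset.antisymm _ (subset_preimage_image _ _)
    rintro ⟨l, y⟩ ⟨⟨k, x⟩, hA, hxy⟩
    have h1 := emb_injective hxy
    have h2 : m k = m l := congrArg Prod.fst h1
    have h3 : OnePoint.map (shift k) x = OnePoint.map (shift l) y := congrArg Prod.snd h1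
    induction x using OnePoint.rec with
    | infty =>
      induction y using OnePoint.rec with
      | infty =>
        have h4 : m k = true := decide_eq_true hA
        rw [h4] at h2
        exact of_decide_eq_true h2.symm
      | coe q => exact absurd h3 (OnePoint.infty_ne_coe _)
    | coe p =>
      induction y using OnePoint.rec with
      | infty => exact absurd h3 (OnePoint.coe_ne_infty _)
      | coe q =>
        have h4 : shift k p = shift l q := OnePoint.coe_injective h3
        have h5 : 3 * p.1 + (k : ℕ) = 3 * q.1 + (l : ℕ) :=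
          congrArg (fun r : ℕ × W => r.1) h4
        have h6 : (shift k p).2 = (shift l q).2 := by rw [h4]
        have h6 : p.2 = q.2 := h6
        have h7 : (k : ℕ) = (l : ℕ) := by
          have := k.2
          have := l.2
          omega
        have h8 : p.1 = q.1 := by omega
        have h9 : k = l := Fin.ext h7
        rw [← h9, ← Prod.ext h8 h6]
        exact hA

/-! ### No embedding -/

/-- the ordinals which are not multiples of `ω₁` have countable local bases -/
lemma countablyGenerated_of_mod {a : Ordinal.{0}} (h : a % ω₁ ≠ 0) :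
    (𝓝 a).IsCountablyGenerated := by
  set g := ω₁ * (a / ω₁) with hg
  have ha : g + a % ω₁ = a := div_add_mod a ω₁
  have hlt : g < a := by
    conv_rhs => rw [← ha]
    conv_lhs => rw [← add_zero g]
    exact (add_lt_add_iff_left _).2 (pos_iff_ne_zero.2 h)
  have hmod : a % ω₁ < ω₁ := mod_lt a (omega_pos 1).ne'
  have hb : (𝓝 a).HasBasis (fun b => g ≤ b ∧ b < a) (fun b => Set.Ioc b a) := by
    refine (SuccOrder.hasBasis_nhds_Ioc_of_exists_lt (a := a) ⟨g, hlt⟩).to_hasBasis ?_ ?_
    · intro b hb
      exact ⟨max g b, ⟨le_max_left _ _, max_lt hlt hb⟩,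
        Set.Ioc_subset_Ioc_left (le_max_right _ _)⟩
    · intro b hb
      exact ⟨b, hb.2, le_rfl⟩
  have hc : {b | g ≤ b ∧ b < a}.Countable := by
    have h1 : {b | g ≤ b ∧ b < a} ⊆ (fun c => g + c) '' Set.Iio (a % ω₁) := by
      rintro b ⟨h1, h2⟩
      refine ⟨b - g, ?_, Ordinal.add_sub_cancel_of_le h1⟩
      have h3 : g + (b - g) < g + a % ω₁ := by rw [Ordinal.add_sub_cancel_of_le h1, ha]; exact h2
      exact (add_lt_add_iff_left _).1 h3
    refine Set.Countable.mono h1 (Set.Countable.image ?_ _)
    have h2 : (a % ω₁).card < Cardinal.aleph 1 := by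
      rw [← Cardinal.lt_ord, Cardinal.ord_aleph]
      exact hmod
    have h3 : (a % ω₁).card ≤ Cardinal.aleph0 := by
      rw [← Cardinal.succ_aleph0] at h2
      exact Order.lt_succ_iff.1 h2
    rw [← Cardinal.le_aleph0_iff_set_countable, Cardinal.mk_Iio_ordinal]
    rwa [← Cardinal.lift_aleph0.{1, 0}, Cardinal.lift_le]
  exact Filter.HasCountableBasis.isCountablyGenerated ⟨hb, hc⟩

/-- the last element of `W` -/
noncomputable def wtop : W := ⟨ω₁, Set.mem_Iic.2 le_rfl⟩

lemma wtop_not : ¬ (𝓝 wtop).IsCountablyGenerated := by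
  intro h
  obtain ⟨V, hV⟩ := (𝓝 wtop).exists_antitone_basis
  have h1 : ∀ n, ∃ b < (ω₁ : Ordinal.{0}), ∀ w : W, b < w.1 → w ∈ V n := by
    intro n
    have h2 : V n ∈ 𝓝 wtop := hV.mem n
    rw [nhds_subtype_eq_comap, mem_comap] at h2
    obtain ⟨O, hO, hOV⟩ := h2
    change O ∈ 𝓝 (ω₁ : Ordinal.{0}) at hO
    rw [(SuccOrder.hasBasis_nhds_Ioc_of_exists_lt (a := (ω₁ : Ordinal.{0}))
      ⟨0, omega_pos 1⟩).mem_iff] at hO
    obtain ⟨b, hb, hbO⟩ := hO
    exact ⟨b, hb, fun w hw => hOV (hbO ⟨hw, w.2⟩)⟩
  choose b hb hbV using h1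
  have hsup : (⨆ n, b n) < ω₁ := Ordinal.iSup_lt_omega_one hb
  let c : Ordinal.{0} := (⨆ n, b n) + 1
  have hc : c < ω₁ := by
    have := (Cardinal.isSuccLimit_omega 1).succ_lt hsup
    rwa [Order.succ_eq_add_one] at this
  have hbc : ∀ n, b n < c := by
    intro n
    have h3 : b n ≤ ⨆ n, b n := Ordinal.le_iSup b n
    exact lt_of_le_of_lt h3 (by
      change _ < (⨆ n, b n) + 1
      rw [← Order.succ_eq_add_one]
      exact Order.lt_succ _)
  have hO : {w : W | c < w.1} ∈ 𝓝 wtop := by
    apply IsOpen.mem_nhds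
    · exact isOpen_Ioi.preimage continuous_subtype_val
    · change c < ω₁
      exact hc
  obtain ⟨n, -, hn⟩ := hV.toHasBasis.mem_iff.1 hO
  have h4 : (⟨c, hc.le⟩ : W) ∈ V n := hbV n _ (hbc n)
  exact lt_irrefl c (hn h4)

/-- the points of uncountable character -/
noncomputable def q (k : Fin 3) (n : ℕ) : X := (k, (((n, wtop) : ℕ × W) : K))

lemma q_not (k : Fin 3) (n : ℕ) : ¬ (𝓝 (q k n)).IsCountablyGenerated := by
  intro h
  let j : W → X := fun w => (k, (((n, w) : ℕ × W) : K))
  have hj : IsInducing j := by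
    have h1 : IsInducing (fun w : W => ((n, w) : ℕ × W)) :=
      (isEmbedding_prodMkRight n).isInducing
    have h2 : IsInducing (fun p : ℕ × W => (p : K)) := OnePoint.isOpenEmbedding_coe.isInducing
    have h3 : IsInducing (fun x : K => ((k, x) : X)) := (isEmbedding_prodMkRight k).isInducing
    exact h3.comp (h2.comp h1)
  apply wtop_not
  rw [hj.nhds_eq_comap]
  have h' : (𝓝 (j wtop)).IsCountablyGenerated := h
  exact Filter.comap.isCountablyGenerated _ _

lemma q_tendsto (k : Fin 3) : Tendsto (q k) atTop (𝓝 (k, (OnePoint.infty : K))) := by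
  have h0 : Tendsto (fun n : ℕ => ((n, wtop) : ℕ × W)) atTop (coclosedCompact (ℕ × W)) := by
    rw [hasBasis_coclosedCompact.tendsto_right_iff]
    rintro s ⟨-, hs⟩
    have h1 : (Prod.fst '' s).Finite := (hs.image continuous_fst).finite_of_discrete
    obtain ⟨n, hn⟩ := h1.bddAbove
    filter_upwards [Filter.eventually_gt_atTop n] with m hm hms
    exact absurd (hn ⟨_, hms, rfl⟩) (not_le.2 hm)
  have h1 : Tendsto (fun n : ℕ => (((n, wtop) : ℕ × W) : K)) atTop (𝓝 OnePoint.infty) :=
    OnePoint.tendsto_coe_infty.comp h0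
  exact tendsto_const_nhds.prodMk_nhds h1

lemma q_injective (k : Fin 3) : Function.Injective (q k) := by
  intro m n h
  have h1 : (((m, wtop) : ℕ × W) : K) = (((n, wtop) : ℕ × W) : K) := congrArg Prod.snd h
  exact congrArg (fun r : ℕ × W => r.1) (OnePoint.coe_injective h1)

lemma false_of_finite {a : ℕ → Ordinal.{0}} (ha : Function.Injective a) {F : Set Ordinal.{0}}
    (hF : F.Finite) (h : ∀ᶠ n in atTop, a n ∈ F) : False := by
  obtain ⟨N, hN⟩ := Filter.eventually_atTop.1 h
  have h1 : Function.Injective (fun n => a (N + n)) := fun m n hmn =>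
    Nat.add_left_cancel (ha hmn)
  exact Set.infinite_of_injective_forall_mem h1 (fun n => hN _ (Nat.le_add_right _ _)) hF

lemma top_mem {e : X → Set.Iio lam} (he : IsEmbedding e) (k : Fin 3) :
    (e (k, (OnePoint.infty : K))).1 = Om ∨ (e (k, (OnePoint.infty : K))).1 = Om + Om := by
  set δ := (e (k, (OnePoint.infty : K))).1 with hδ
  have hδ1 : δ ≤ Om + Om := by
    have h1 : δ < Om + Om + 1 := (e (k, (OnePoint.infty : K))).2
    rwa [← Order.succ_eq_add_one, Order.lt_succ_iff] at h1
  by_contra hcon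
  push Not at hcon
  obtain ⟨hne1, hne2⟩ := hcon
  have hind : IsInducing (fun x => (e x).1) := IsInducing.subtypeVal.comp he.isInducing
  let a : ℕ → Ordinal.{0} := fun n => (e (q k n)).1
  have hainj : Function.Injective a := fun m n h =>
    q_injective k (he.injective (Subtype.ext h))
  have hat : Tendsto a atTop (𝓝 δ) := (hind.continuous.tendsto _).comp (q_tendsto k)
  have hmod : ∀ n, ω₁ * (a n / ω₁) = a n := by
    intro n
    have h1 : a n % ω₁ = 0 := by
      by_contra h
      have h2 := countablyGenerated_of_mod h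
      apply q_not k n
      rw [hind.nhds_eq_comap]
      have h3 : (𝓝 ((fun x => (e x).1) (q k n))).IsCountablyGenerated := h2
      exact Filter.comap.isCountablyGenerated _ _
    have h2 := div_add_mod (a n) ω₁
    rwa [h1, add_zero] at h2
  have hpos : (0 : Ordinal.{0}) < ω₁ := omega_pos 1
  rcases lt_trichotomy δ Om with h | h | h
  · obtain ⟨c, hc, hδc⟩ := (lt_mul_iff_of_isSuccLimit isSuccLimit_omega0).1 h
    obtain ⟨m, rfl⟩ := lt_omega0.1 hc
    apply false_of_finite hainj ((Set.finite_Iio m).image fun i : ℕ => ω₁ * (i : Ordinal.{0}))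
    filter_upwards [hat (isOpen_Iio.mem_nhds hδc)] with n hn
    have h1 : ω₁ * (a n / ω₁) < ω₁ * (m : Ordinal.{0}) := by
      rw [hmod n]
      exact hn
    have h2 : a n / ω₁ < m := (mul_lt_mul_iff_right₀ hpos).1 h1
    obtain ⟨i, hi⟩ := lt_omega0.1 (h2.trans (natCast_lt_omega0 m))
    refine ⟨i, ?_, ?_⟩
    · rw [hi] at h2
      exact_mod_cast h2
    · change ω₁ * (i : Ordinal.{0}) = a n
      rw [← hi, hmod n]
  · exact hne1 h
  · have h2 : δ < Om + Om := lt_of_le_of_ne hδ1 hne2
    have h3 : Om + Om = ω₁ * (ω + ω) := by rw [mul_add]; rfl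
    rw [h3, lt_mul_iff_of_isSuccLimit (isSuccLimit_add ω isSuccLimit_omega0)] at h2
    obtain ⟨c, hc, hδc⟩ := h2
    obtain ⟨m, hm⟩ : ∃ m : ℕ, c ≤ ω + m := by
      rcases le_or_gt ω c with hωc | hωc
      · have h4 : c - ω < ω := by
          have h5 : ω + (c - ω) < ω + ω := by rwa [Ordinal.add_sub_cancel_of_le hωc]
          exact (add_lt_add_iff_left _).1 h5
        obtain ⟨m, hm⟩ := lt_omega0.1 h4
        refine ⟨m, ?_⟩
        rw [← hm, Ordinal.add_sub_cancel_of_le hωc]
      · exact ⟨0, hωc.le.trans (le_add_right le_rfl)⟩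
    have hδm : δ < ω₁ * (ω + m) := hδc.trans_le (mul_le_mul_right hm _)
    apply false_of_finite hainj
      ((Set.finite_Iio m).image fun i : ℕ => ω₁ * (ω + (i : Ordinal.{0})))
    filter_upwards [hat (isOpen_Ioo.mem_nhds ⟨h, hδm⟩)] with n hn
    have h1 : ω₁ * (a n / ω₁) < ω₁ * (ω + m) := by
      rw [hmod n]
      exact hn.2
    have h1' : ω₁ * ω < ω₁ * (a n / ω₁) := by
      rw [hmod n]
      exact hn.1
    have h2 : a n / ω₁ < ω + m := (mul_lt_mul_iff_right₀ hpos).1 h1
    have h2' : ω < a n / ω₁ := (mul_lt_mul_iff_right₀ hpos).1 h1'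
    have h4 : ω + (a n / ω₁ - ω) = a n / ω₁ := Ordinal.add_sub_cancel_of_le h2'.le
    have h5 : a n / ω₁ - ω < m := by
      rw [← h4] at h2
      exact (add_lt_add_iff_left _).1 h2
    obtain ⟨i, hi⟩ := lt_omega0.1 (h5.trans (natCast_lt_omega0 m))
    refine ⟨i, ?_, ?_⟩
    · rw [hi] at h5
      exact_mod_cast h5
    · change ω₁ * (ω + (i : Ordinal.{0})) = a n
      rw [← hi, h4, hmod n]

lemma no_embedding : ¬ ∃ e : X → Set.Iio lam, IsEmbedding e := by
  rintro ⟨e, he⟩
  have h0 := top_mem he 0
  have h1 := top_mem he 1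
  have h2 := top_mem he 2
  have hinj : ∀ k l : Fin 3, (e (k, (OnePoint.infty : K))).1 = (e (l, (OnePoint.infty : K))).1 →
      k = l := by
    intro k l h
    exact congrArg (fun x : X => x.1) (he.injective (Subtype.ext h))
  rcases h0 with h0 | h0 <;> rcases h1 with h1 | h1 <;> rcases h2 with h2 | h2
  · exact absurd (hinj 0 1 (h0.trans h1.symm)) (by decide)
  · exact absurd (hinj 0 1 (h0.trans h1.symm)) (by decide)
  · exact absurd (hinj 0 2 (h0.trans h2.symm)) (by decide)
  · exact absurd (hinj 1 2 (h1.trans h2.symm)) (by decide)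
  · exact absurd (hinj 1 2 (h1.trans h2.symm)) (by decide)
  · exact absurd (hinj 0 2 (h0.trans h2.symm)) (by decide)
  · exact absurd (hinj 0 1 (h0.trans h1.symm)) (by decide)
  · exact absurd (hinj 0 1 (h0.trans h1.symm)) (by decide)

end Pool.Agent.R818.Cleave
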