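import Pool.Agent.R955.FD.Defs

/-!
Piece DEC of project FD (MP_0880e2_an): decay and size of `Ext g I`.
-/

set_option autoImplicit false

namespace Pool.Agent.R818.FDDEC

open MeasureTheory Set Filter Topology Pool.Agent.R955.FD
open scoped ENNReal

universe u

theorem norm_ch (ξ t : ℝ) : ‖ch ξ t‖ = 1 := by
  unfold ch
  exact Complex.norm_exp_ofReal_mul_I _

theorem ch_shift (ξ s : ℝ) (hs : s ≠ 0) : ch (ξ + 1 / (2 * s)) s = - ch ξ s := by
  unfold ch
  have hr : 2 * Real.pi * (ξ + 1 / (2 * s)) * s = 2 * Real.pi * ξ * s + Real.pi := by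
    field_simp
  rw [hr, Complex.ofReal_add, add_mul, Complex.exp_add, Complex.exp_pi_mul_I]
  ring

theorem continuous_ch_right (ξ : ℝ) : Continuous fun s : ℝ => ch ξ s := by
  unfold ch
  fun_prop

theorem continuous_ch_left (s : ℝ) : Continuous fun ξ : ℝ => ch ξ s := by
  unfold ch
  fun_prop

theorem vol1 (I : Set ℝ) (hI : I.OrdConnected) (h : ℝ) :
    volume {ξ : ℝ | ξ ∈ I ∧ ξ + h ∉ I} ≤ ENNReal.ofReal |h| := by
  refine (Real.volume_le_diam _).trans (Metric.ediam_le ?_)
  have key : ∀ x y : ℝ, (x ∈ I ∧ x + h ∉ I) → (y ∈ I ∧ y + h ∉ I) → x ≤ y → y - x ≤ |h| := by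
    intro x y hx hy hxy
    by_contra hc
    push Not at hc
    rcases le_total 0 h with h0 | h0
    · rw [abs_of_nonneg h0] at hc
      exact hx.2 (hI.out hx.1 hy.1 ⟨by linarith, by linarith⟩)
    · rw [abs_of_nonpos h0] at hc
      exact hy.2 (hI.out hx.1 hy.1 ⟨by linarith, by linarith⟩)
  intro x hx y hy
  rw [edist_dist, Real.dist_eq]
  refine ENNReal.ofReal_le_ofReal ?_
  rcases le_total x y with hxy | hxy
  · rw [abs_sub_comm, abs_of_nonneg (by linarith)]
    exact key x y hx hy hxy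
  · rw [abs_of_nonneg (by linarith)]
    exact key y x hy hx hxy

theorem vol2 (I : Set ℝ) (hI : I.OrdConnected) (h : ℝ) :
    volume {ξ : ℝ | ξ ∉ I ∧ ξ + h ∈ I} ≤ ENNReal.ofReal |h| := by
  refine (Real.volume_le_diam _).trans (Metric.ediam_le ?_)
  have key : ∀ x y : ℝ, (x ∉ I ∧ x + h ∈ I) → (y ∉ I ∧ y + h ∈ I) → x ≤ y → y - x ≤ |h| := by
    intro x y hx hy hxy
    by_contra hc
    push Not at hc
    rcases le_total 0 h with h0 | h0
    · rw [abs_of_nonneg h0] at hc
      exact hy.1 (hI.out hx.2 hy.2 ⟨by linarith, by linarith⟩)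
    · rw [abs_of_nonpos h0] at hc
      exact hx.1 (hI.out hx.2 hy.2 ⟨by linarith, by linarith⟩)
  intro x hx y hy
  rw [edist_dist, Real.dist_eq]
  refine ENNReal.ofReal_le_ofReal ?_
  rcases le_total x y with hxy | hxy
  · rw [abs_sub_comm, abs_of_nonneg (by linarith)]
    exact key x y hx hy hxy
  · rw [abs_of_nonneg (by linarith)]
    exact key y x hy hx hxy

variable {X : Type u} [NormedAddCommGroup X] [NormedSpace ℂ X]

theorem nice_cont {g : ℝ → X} {A L : ℝ} (hg : Nice g A L) : Continuous g := by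
  have : LipschitzWith (Real.toNNReal L) g := by
    refine LipschitzWith.of_dist_le_mul fun x y => ?_
    rw [dist_eq_norm, Real.dist_eq, Real.coe_toNNReal _ hg.2.1.le]
    exact hg.2.2.2.1 x y
  exact this.continuous

theorem nice_int {g : ℝ → X} {A L : ℝ} (hg : Nice g A L) : Integrable g := by
  refine (nice_cont hg).integrable_of_hasCompactSupport ?_
  refine HasCompactSupport.intro (isCompact_Icc (a := -A) (b := A)) fun x hx => ?_
  apply hg.2.2.2.2
  by_contra hc
  push Not at hc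
  exact hx (abs_le.mp hc.le)

theorem Ext_eq (g : ℝ → X) (I : Set ℝ) (hI : MeasurableSet I) (s : ℝ) :
    Ext g I s = ∫ ξ, ch ξ s • I.indicator g ξ := by
  unfold R955.FD.Ext
  rw [← integral_indicator hI]
  congr 1
  funext ξ
  by_cases h : ξ ∈ I
  · simp [h]
  · simp [h]

theorem sub_bound {g : ℝ → X} {A L : ℝ} (hg : Nice g A L) (I : Set ℝ) (h ξ : ℝ) :
    ‖I.indicator g ξ - I.indicator g (ξ + h)‖ ≤
      (Icc (-(A + |h|)) (A + |h|)).indicator (fun _ => L * |h|) ξ +
      {ξ : ℝ | ξ ∈ I ∧ ξ + h ∉ I}.indicator (fun _ => L) ξ +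
      {ξ : ℝ | ξ ∉ I ∧ ξ + h ∈ I}.indicator (fun _ => L) ξ := by
  obtain ⟨hA, hL, hb, hlip, hz⟩ := hg
  have n1 : 0 ≤ (Icc (-(A + |h|)) (A + |h|)).indicator (fun _ => L * |h|) ξ :=
    indicator_nonneg (fun _ _ => by positivity) _
  have n2 : 0 ≤ {ξ : ℝ | ξ ∈ I ∧ ξ + h ∉ I}.indicator (fun _ => L) ξ :=
    indicator_nonneg (fun _ _ => hL.le) _
  have n3 : 0 ≤ {ξ : ℝ | ξ ∉ I ∧ ξ + h ∈ I}.indicator (fun _ => L) ξ :=
    indicator_nonneg (fun _ _ => hL.le) _
  by_cases h1 : ξ ∈ I
  · by_cases h2 : ξ + h ∈ I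
    · rw [indicator_of_mem h1, indicator_of_mem h2]
      by_cases h3 : ξ ∈ Icc (-(A + |h|)) (A + |h|)
      · rw [indicator_of_mem h3]
        have := hlip ξ (ξ + h)
        have e : ξ - (ξ + h) = -h := by ring
        rw [e, abs_neg] at this
        linarith
      · have h4 : A + |h| < |ξ| := by
          by_contra hc
          push Not at hc
          exact h3 (abs_le.mp hc)
        have h5 : A ≤ |ξ| := by linarith [abs_nonneg h]
        have h6 : A ≤ |ξ + h| := by
          have : |ξ| ≤ |ξ + h| + |h| := by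
            calc |ξ| = |(ξ + h) - h| := by ring_nf
              _ ≤ |ξ + h| + |h| := abs_sub _ _
          linarith
        rw [hz ξ h5, hz (ξ + h) h6, sub_zero, norm_zero]
        linarith
    · rw [indicator_of_mem h1, indicator_of_notMem h2, sub_zero]
      have h7 : ξ ∈ {ξ : ℝ | ξ ∈ I ∧ ξ + h ∉ I} := ⟨h1, h2⟩
      rw [indicator_of_mem h7]
      have := hb ξ
      linarith
  · by_cases h2 : ξ + h ∈ I
    · rw [indicator_of_notMem h1, indicator_of_mem h2, zero_sub, norm_neg]
      have h7 : ξ ∈ {ξ : ℝ | ξ ∉ I ∧ ξ + h ∈ I} := ⟨h1, h2⟩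
      rw [indicator_of_mem h7]
      have := hb (ξ + h)
      linarith
    · rw [indicator_of_notMem h1, indicator_of_notMem h2, sub_zero, norm_zero]
      linarith

theorem int_ind_le (D : Set ℝ) (hD : MeasurableSet D) (h L : ℝ) (hL : 0 ≤ L)
    (hv : volume D ≤ ENNReal.ofReal |h|) :
    Integrable (D.indicator (fun _ : ℝ => L)) ∧ ∫ ξ, D.indicator (fun _ : ℝ => L) ξ ≤ |h| * L := by
  have hfin : volume D < ∞ := lt_of_le_of_lt hv ENNReal.ofReal_lt_top
  refine ⟨(integrable_indicator_iff hD).mpr (integrableOn_const hfin.ne), ?_⟩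
  rw [integral_indicator hD, setIntegral_const, smul_eq_mul]
  refine mul_le_mul_of_nonneg_right ?_ hL
  rw [Measure.real]
  exact ENNReal.toReal_le_of_le_ofReal (abs_nonneg _) hv

theorem decay {g : ℝ → X} {A L : ℝ} (hg : Nice g A L) (I : Set ℝ) (hI : I.OrdConnected)
    (s : ℝ) (hs : s ≠ 0) : 2 * ‖Ext g I s‖ ≤
      L * |1 / (2 * s)| * (2 * (A + |1 / (2 * s)|)) + 2 * (|1 / (2 * s)| * L) := by
  set h : ℝ := 1 / (2 * s) with hh
  have hIm : MeasurableSet I := hI.measurableSet
  set G : ℝ → X := I.indicator g with hG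
  have hGi : Integrable G := (nice_int hg).indicator hIm
  have hGi' : Integrable (fun ξ => G (ξ + h)) := hGi.comp_add_right h
  have hmul : ∀ F : ℝ → X, Integrable F → Integrable (fun ξ => ch ξ s • F ξ) := by
    intro F hF
    refine (hF.norm.mono' ?_ ?_)
    · exact ((continuous_ch_left s).aestronglyMeasurable).smul hF.aestronglyMeasurable
    · refine Eventually.of_forall fun ξ => ?_
      rw [norm_smul, norm_ch, one_mul]
  have e1 : Ext g I s = ∫ ξ, ch ξ s • G ξ := Ext_eq g I hIm s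
  have e2 : Ext g I s = - ∫ ξ, ch ξ s • G (ξ + h) := by
    rw [e1, ← integral_add_right_eq_self (fun ξ => ch ξ s • G ξ) h, ← integral_neg]
    congr 1
    funext ξ
    rw [hh, ch_shift ξ s hs, neg_smul]
  have e3 : (2 : ℝ) • Ext g I s = ∫ ξ, ch ξ s • (G ξ - G (ξ + h)) := by
    have : ∀ ξ, ch ξ s • (G ξ - G (ξ + h)) = ch ξ s • G ξ - ch ξ s • G (ξ + h) :=
      fun ξ => smul_sub _ _ _
    simp only [this]
    rw [integral_sub (hmul _ hGi) (hmul _ hGi'), ← e1, two_smul]
    nth_rewrite 2 [e2]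
    abel
  have e4 : 2 * ‖Ext g I s‖ = ‖∫ ξ, ch ξ s • (G ξ - G (ξ + h))‖ := by
    rw [← e3, norm_smul, Real.norm_eq_abs, abs_of_pos (by norm_num : (0 : ℝ) < 2)]
  rw [e4]
  have hm1 : MeasurableSet {ξ : ℝ | ξ ∈ I ∧ ξ + h ∉ I} :=
    hIm.inter ((measurable_id.add_const h) hIm.compl)
  have hm2 : MeasurableSet {ξ : ℝ | ξ ∉ I ∧ ξ + h ∈ I} :=
    hIm.compl.inter ((measurable_id.add_const h) hIm)
  obtain ⟨i1, b1⟩ := int_ind_le _ hm1 h L hg.2.1.le (vol1 I hI h)
  obtain ⟨i2, b2⟩ := int_ind_le _ hm2 h L hg.2.1.le (vol2 I hI h)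
  have i0 : Integrable ((Icc (-(A + |h|)) (A + |h|)).indicator (fun _ : ℝ => L * |h|)) :=
    (integrable_indicator_iff measurableSet_Icc).mpr
      (integrableOn_const (by rw [Real.volume_Icc]; exact ENNReal.ofReal_ne_top))
  have b0 : ∫ ξ, (Icc (-(A + |h|)) (A + |h|)).indicator (fun _ : ℝ => L * |h|) ξ =
      2 * (A + |h|) * (L * |h|) := by
    rw [integral_indicator measurableSet_Icc, setIntegral_const, smul_eq_mul]
    congr 1
    rw [Measure.real, Real.volume_Icc, ENNReal.toReal_ofReal]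
    · ring
    · have := hg.1
      have := abs_nonneg h
      linarith
  refine (norm_integral_le_of_norm_le ((i0.add i1).add i2) (Eventually.of_forall fun ξ => ?_)).trans
    ?_
  · rw [norm_smul, norm_ch, one_mul]
    exact sub_bound hg I h ξ
  · have e5 : ∫ ξ, (((Icc (-(A + |h|)) (A + |h|)).indicator (fun _ : ℝ => L * |h|) +
        {ξ : ℝ | ξ ∈ I ∧ ξ + h ∉ I}.indicator (fun _ : ℝ => L)) +
        {ξ : ℝ | ξ ∉ I ∧ ξ + h ∈ I}.indicator (fun _ : ℝ => L)) ξ =
        (∫ ξ, (Icc (-(A + |h|)) (A + |h|)).indicator (fun _ : ℝ => L * |h|) ξ) +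
        (∫ ξ, {ξ : ℝ | ξ ∈ I ∧ ξ + h ∉ I}.indicator (fun _ : ℝ => L) ξ) +
        (∫ ξ, {ξ : ℝ | ξ ∉ I ∧ ξ + h ∈ I}.indicator (fun _ : ℝ => L) ξ) := by
      rw [integral_add' (i0.add i1) i2, integral_add' i0 i1]
    rw [e5, b0]
    linarith

theorem t_DEC : S_DEC.{u} := by
  intro X _ _ _ g A L hg
  obtain ⟨hA, hL, hb, hlip, hz⟩ := id hg
  have hgi := nice_int hg
  set C0 : ℝ := ∫ ξ, ‖g ξ‖ with hC0
  have hC0' : 0 ≤ C0 := integral_nonneg fun _ => norm_nonneg _
  have hLA : 0 < L * (A + 2) := by positivity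
  have hsup : ∀ (I : Set ℝ), I.OrdConnected → ∀ s, ‖Ext g I s‖ ≤ C0 := by
    intro I hI s
    unfold R955.FD.Ext
    refine (norm_integral_le_integral_norm _).trans ?_
    have : (fun ξ => ‖ch ξ s • g ξ‖) = fun ξ => ‖g ξ‖ := by
      funext ξ
      rw [norm_smul, norm_ch, one_mul]
    rw [this]
    exact setIntegral_le_integral hgi.norm (Eventually.of_forall fun _ => norm_nonneg _)
  refine ⟨C0 + L * (A + 2) + L, by positivity, ?_, ?_⟩
  · intro I hI
    have hIm : MeasurableSet I := hI.measurableSet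
    refine ⟨?_, ?_, ?_⟩
    · unfold R955.FD.Ext
      refine continuous_of_dominated (bound := fun ξ => ‖g ξ‖) ?_ ?_ ?_ ?_
      · intro s
        exact (((continuous_ch_left s).smul (nice_cont hg)).aestronglyMeasurable)
      · intro s
        refine Eventually.of_forall fun ξ => ?_
        rw [norm_smul, norm_ch, one_mul]
      · exact hgi.norm.integrableOn
      · refine Eventually.of_forall fun ξ => ?_
        exact (continuous_ch_right ξ).smul continuous_const
    · intro s
      have := hsup I hI s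
      linarith
    · intro s hs
      have hs0 : 0 < |s| := abs_pos.mpr hs
      rcases le_or_gt 1 |s| with h1 | h1
      · have hd := decay hg I hI s hs
        have e1 : |1 / (2 * s)| = 1 / (2 * |s|) := by
          rw [abs_div, abs_one, abs_mul, abs_of_pos (by norm_num : (0 : ℝ) < 2)]
        rw [e1] at hd
        have h2 : 1 / (2 * |s|) ≤ 1 := by
          rw [div_le_one (by positivity)]
          linarith
        have h3 : 0 < 1 / (2 * |s|) := by positivity
        have h4 : 1 / (2 * |s|) = (1 / 2) * (1 / |s|) := by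
          field_simp
        rw [le_div_iff₀ hs0]
        have h5 : 1 / (2 * |s|) * |s| = 1 / 2 := by
          field_simp
        have h6 : 2 * ‖Ext g I s‖ * |s| ≤ (L * (1 / (2 * |s|)) * (2 * (A + 1 / (2 * |s|))) +
            2 * (1 / (2 * |s|) * L)) * |s| := mul_le_mul_of_nonneg_right hd hs0.le
        have h7 : (L * (1 / (2 * |s|)) * (2 * (A + 1 / (2 * |s|))) +
            2 * (1 / (2 * |s|) * L)) * |s| =
            (1 / (2 * |s|) * |s|) * (L * (2 * (A + 1 / (2 * |s|))) + 2 * L) := by ring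
        rw [h7, h5] at h6
        have h8 : L * (2 * (A + 1 / (2 * |s|))) ≤ L * (2 * (A + 1)) :=
          mul_le_mul_of_nonneg_left (by linarith) hL.le
        nlinarith
      · have h2 := hsup I hI s
        rw [le_div_iff₀ hs0]
        have h3 : ‖Ext g I s‖ * |s| ≤ ‖Ext g I s‖ * 1 :=
          mul_le_mul_of_nonneg_left h1.le (norm_nonneg _)
        linarith
  · intro a κ I hκ hI hsub s
    have hIm : MeasurableSet I := hI.measurableSet
    have hv : volume I ≤ ENNReal.ofReal κ := by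
      refine (measure_mono hsub).trans ?_
      rw [Real.volume_Icc]
      exact ENNReal.ofReal_le_ofReal (by linarith)
    have hfin : volume I < ∞ := lt_of_le_of_lt hv ENNReal.ofReal_lt_top
    have h1 : ‖Ext g I s‖ ≤ L * volume.real I := by
      unfold R955.FD.Ext
      refine norm_setIntegral_le_of_norm_le_const hfin fun ξ _ => ?_
      rw [norm_smul, norm_ch, one_mul]
      exact hb ξ
    have h2 : volume.real I ≤ κ := ENNReal.toReal_le_of_le_ofReal hκ hv
    have h3 : L * volume.real I ≤ L * κ := mul_le_mul_of_nonneg_left h2 hL.le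
    have h4 : L * κ ≤ (C0 + L * (A + 2) + L) * κ :=
      mul_le_mul_of_nonneg_right (by linarith) hκ
    linarith

end Pool.Agent.R818.FDDEC
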