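import Pool.Agent.R537.LR.Stm

set_option autoImplicit false

/-! LR: block matrices as lists of lists (piece of MP_d82c50_lc). -/

namespace Pool.Agent.R818.LRLR

open Pool.Agent.NPC.R537LR

lemma flat_len {ρ β : Type} (R : List ρ) (T : ℕ) (g : ρ → ℕ → β) :
    (R.flatMap fun r => (List.range T).map (g r)).length = R.length * T := by
  induction R with
  | nil => simp
  | cons r R ih =>
    rw [List.flatMap_cons, List.length_append, ih, List.length_map, List.length_range,
      List.length_cons]
    ring

lemma flat_getD {ρ β : Type} (T : ℕ) (g : ρ → ℕ → β) (d : β) (R : List ρ) :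
    ∀ (i : Fin R.length) (a : ℕ), a < T →
    (R.flatMap fun r => (List.range T).map (g r)).getD (a + T * i) d = g (R.get i) a := by
  induction R with
  | nil => intro i; exact i.elim0
  | cons r R ih =>
    intro i a ha
    rw [List.flatMap_cons]
    refine Fin.cases ?_ (fun i => ?_) i
    · have h1 : a + T * ((0 : Fin (R.length + 1)) : ℕ) = a := by simp
      have h2 : a < ((List.range T).map (g r)).length := by simpa using ha
      show List.getD _ (a + T * ((0 : Fin (R.length + 1)) : ℕ)) d = _
      rw [h1, List.getD_append _ _ _ _ h2, List.getD_eq_getElem _ _ h2]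
      simp
    · have h2 : ((List.range T).map (g r)).length ≤ a + T * ((i.succ : Fin (R.length + 1)) : ℕ) := by
        simp only [List.length_map, List.length_range, Fin.val_succ]
        nlinarith
      show List.getD _ (a + T * ((i.succ : Fin (R.length + 1)) : ℕ)) d = _
      rw [List.getD_append_right _ _ _ _ h2]
      have h3 : a + T * ((i.succ : Fin (R.length + 1)) : ℕ) - ((List.range T).map (g r)).length =
          a + T * i := by
        simp only [List.length_map, List.length_range, Fin.val_succ, mul_add, mul_one]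
        omega
      rw [h3, ih i a ha]
      rfl

lemma flat_mem {ρ β : Type} (R : List ρ) (T : ℕ) (g : ρ → ℕ → β) (z : β)
    (h : z ∈ R.flatMap fun r => (List.range T).map (g r)) : ∃ r a, z = g r a := by
  rw [List.mem_flatMap] at h
  obtain ⟨r, _, h⟩ := h
  rw [List.mem_map] at h
  obtain ⟨a, _, h⟩ := h
  exact ⟨r, a, h.symm⟩

lemma dist0_sub {I J I' J' : Type} [Fintype I] [Fintype J] [Fintype I'] [Fintype J']
    (eR : I' ≃ I) (eC : J' ≃ J) (A B : Matrix I J ℝ) :
    dist0 (A.submatrix eR eC) (B.submatrix eR eC) = dist0 A B := by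
  unfold dist0
  congr 1
  refine Finset.card_bij (fun p _ => (eR p.1, eC p.2)) ?_ ?_ ?_
  · intro p hp
    simpa using hp
  · intro p _ q _ h
    simp only [Prod.mk.injEq, EmbeddingLike.apply_eq_iff_eq] at h
    exact Prod.ext h.1 h.2
  · intro q hq
    refine ⟨(eR.symm q.1, eC.symm q.2), ?_, ?_⟩
    · simpa using hq
    · simp

lemma dist1_sub {I J I' J' : Type} [Fintype I] [Fintype J] [Fintype I'] [Fintype J']
    (eR : I' ≃ I) (eC : J' ≃ J) (A B : Matrix I J ℝ) :
    dist1 (A.submatrix eR eC) (B.submatrix eR eC) = dist1 A B := by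
  unfold dist1
  rw [← Equiv.sum_comp eR]
  refine Finset.sum_congr rfl fun i _ => ?_
  rw [← Equiv.sum_comp eC]
  rfl

theorem t_LR : S_LR := by
  intro ρ κ T f R C k N hT hR hN
  have hlen : (blk T f R C).length = R.length * T := flat_len R T _
  have hrow : ∀ r ∈ blk T f R C, r.length = C.length * T := by
    intro r hr
    obtain ⟨r', a, rfl⟩ := flat_mem R T _ r hr
    exact flat_len C T _
  have hent : ∀ (x : Fin R.length × Fin T) (y : Fin C.length × Fin T),
      (blk T f R C).entry (finProdFinEquiv x) (finProdFinEquiv y) =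
        f (R.get x.1) (C.get y.1) x.2 y.2 := by
    intro x y
    unfold RMat.entry blk
    rw [finProdFinEquiv_apply_val, finProdFinEquiv_apply_val]
    rw [flat_getD T (fun r a => C.flatMap fun c => (List.range T).map fun b => f r c a b) []
      R x.1 x.2 x.2.isLt]
    exact flat_getD T (fun c b => f (R.get x.1) c x.2 b) 0 C y.1 y.2 y.2.isLt
  have hmn : ∀ m n, (blk T f R C).IsMat m n → m = R.length * T ∧ n = C.length * T := by
    rintro m n ⟨h1, h2⟩
    refine ⟨h1.symm.trans hlen, ?_⟩
    have hpos : 0 < (blk T f R C).length := by rw [hlen]; exact Nat.mul_pos hR hT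
    have hmem := List.get_mem (blk T f R C) ⟨0, hpos⟩
    exact (h2 _ hmem).symm.trans (hrow _ hmem)
  have hreal : ((blk T f R C).real (R.length * T) (C.length * T)).submatrix
      finProdFinEquiv finProdFinEquiv =
      Matrix.of fun (x : Fin R.length × Fin T) (y : Fin C.length × Fin T) =>
        ((f (R.get x.1) (C.get y.1) x.2 y.2 : ℚ) : ℝ) := by
    ext x y
    simp only [Matrix.submatrix_apply, RMat.real, Matrix.of_apply]
    rw [hent x y]
  have hN' : (0 : ℚ) < (N : ℚ) := by exact_mod_cast hN
  constructor
  · constructor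
    · rintro ⟨m, n, hM, _, B, hB, hd⟩
      obtain ⟨rfl, rfl⟩ := hmn m n hM
      refine ⟨B.submatrix finProdFinEquiv finProdFinEquiv, ?_, ?_⟩
      · rw [Matrix.rank_submatrix]; exact hB
      · rw [← hreal, dist0_sub]
        simpa using hd
    · rintro ⟨B, hB, hd⟩
      refine ⟨_, _, ⟨hlen, hrow⟩, hN', B.submatrix finProdFinEquiv.symm finProdFinEquiv.symm,
        ?_, ?_⟩
      · rw [Matrix.rank_submatrix]; exact hB
      · rw [← dist0_sub finProdFinEquiv finProdFinEquiv, hreal, Matrix.submatrix_submatrix]
        simpa using hd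
  · constructor
    · rintro ⟨m, n, hM, _, B, hB, hd⟩
      obtain ⟨rfl, rfl⟩ := hmn m n hM
      refine ⟨B.submatrix finProdFinEquiv finProdFinEquiv, ?_, ?_⟩
      · rw [Matrix.rank_submatrix]; exact hB
      · rw [← hreal, dist1_sub]
        simpa using hd
    · rintro ⟨B, hB, hd⟩
      refine ⟨_, _, ⟨hlen, hrow⟩, hN', B.submatrix finProdFinEquiv.symm finProdFinEquiv.symm,
        ?_, ?_⟩
      · rw [Matrix.rank_submatrix]; exact hB
      · rw [← dist1_sub finProdFinEquiv finProdFinEquiv, hreal, Matrix.submatrix_submatrix]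
        simpa using hd

end Pool.Agent.R818.LRLR
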