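import Mathlib

/-!
# No class of test spaces characterises UOK
-/

set_option autoImplicit false

open Set Topology Filter

universe v

namespace Pool.Agent.R818.Uok

/-- `H` is `C`-closed. -/
def CClosed (C : (Z : Type v) → TopologicalSpace Z → Prop) {X : Type} [TopologicalSpace X]
    (H : Set X) : Prop :=
  ∀ (Z : Type v) (tz : TopologicalSpace Z), C Z tz → ∀ f : Z → X, Continuous f → IsClosed (f ⁻¹' H)

/-- `X` is `C`-Hausdorff. -/
def CHausdorff (C : (Z : Type v) → TopologicalSpace Z → Prop) (X : Type) [TopologicalSpace X] :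
    Prop :=
  CClosed C (diagonal X)

/-- `X` is UOK. -/
def UOK (X : Type) [TopologicalSpace X] : Prop :=
  ∀ (L : Type) [TopologicalSpace L] [LocallyCompactSpace L] [T2Space L] [NoncompactSpace L]
    (f : L → X), Continuous f → ∀ g h : OnePoint L → X, Continuous g → Continuous h →
      (∀ l : L, g l = f l) → (∀ l : L, h l = f l) → g = h

/-! ### Two copies of a space glued along a subset -/

section Glue
variable {K : Type}

/-- the relation -/
def glSetoid (S : Set K) : Setoid (K × Bool) where
  r x y := x.1 = y.1 ∧ (x.2 = y.2 ∨ x.1 ∈ S)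
  iseqv := by
    refine ⟨fun p => ⟨rfl, Or.inl rfl⟩, ?_, ?_⟩
    · rintro p q ⟨h1, h2⟩
      refine ⟨h1.symm, ?_⟩
      rw [← h1]
      exact h2.imp Eq.symm id
    · rintro p q r ⟨h1, h2⟩ ⟨h3, h4⟩
      refine ⟨h1.trans h3, ?_⟩
      rw [← h1] at h4
      rcases h2 with h2 | h2
      · rcases h4 with h4 | h4
        · exact Or.inl (h2.trans h4)
        · exact Or.inr h4
      · exact Or.inr h2

/-- the glued space -/
def Gl (S : Set K) : Type := Quotient (glSetoid S)

/-- a point -/
def pt (S : Set K) (k : K) (i : Bool) : Gl S := Quotient.mk (glSetoid S) (k, i)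

lemma pt_eq {S : Set K} {k l : K} {i j : Bool} : pt S k i = pt S l j ↔ k = l ∧ (i = j ∨ k ∈ S) :=
  Quotient.eq

lemma pt_surj {S : Set K} (q : Gl S) : ∃ k i, q = pt S k i := by
  obtain ⟨⟨k, i⟩, h⟩ := Quotient.exists_rep q
  exact ⟨k, i, h.symm⟩

/-- the projection -/
def pr (S : Set K) : Gl S → K := Quotient.lift Prod.fst fun _ _ h => h.1

lemma pr_pt (S : Set K) (k : K) (i : Bool) : pr S (pt S k i) = k := rfl

variable [TopologicalSpace K]

instance (S : Set K) : TopologicalSpace (Gl S) :=
  inferInstanceAs (TopologicalSpace (Quotient (glSetoid S)))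

lemma isOpen_iff {S : Set K} {V : Set (Gl S)} : IsOpen V ↔ ∀ i, IsOpen {k | pt S k i ∈ V} := by
  have h1 : IsOpen V ↔ IsOpen {p : K × Bool | pt S p.1 p.2 ∈ V} :=
    isQuotientMap_quotient_mk'.isOpen_preimage.symm
  rw [h1]
  constructor
  · intro h i
    exact h.preimage (Continuous.prodMk continuous_id continuous_const)
  · intro h
    have : {p : K × Bool | pt S p.1 p.2 ∈ V} = ⋃ i, {k | pt S k i ∈ V} ×ˢ {i} := by
      ext ⟨w, i⟩
      simp
    rw [this]
    exact isOpen_iUnion fun i => (h i).prod (isOpen_discrete _)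

lemma continuous_pt (S : Set K) (i : Bool) : Continuous (fun k => pt S k i) :=
  ⟨fun _ hV => isOpen_iff.1 hV i⟩

lemma continuous_pr (S : Set K) : Continuous (pr S) :=
  ⟨fun _ hU => isOpen_iff.2 fun _ => hU⟩

/-- the complement of a closed set on one sheet, away from the glued part -/
lemma isOpen_sheet {S T : Set K} (hT : IsClosed T) (hd : Disjoint T S) (i : Bool) :
    IsOpen {q : Gl S | ∀ k ∈ T, q ≠ pt S k i} := by
  rw [isOpen_iff]
  intro j
  by_cases hj : j = i
  · subst hj
    have : {k | pt S k j ∈ {q : Gl S | ∀ k ∈ T, q ≠ pt S k j}} = Tᶜ := by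
      ext k
      constructor
      · intro h hk
        exact h k hk rfl
      · intro h l hl he
        exact h ((pt_eq.1 he).1 ▸ hl)
    rw [this]
    exact hT.isOpen_compl
  · have : {k | pt S k j ∈ {q : Gl S | ∀ k ∈ T, q ≠ pt S k i}} = univ := by
      rw [eq_univ_iff_forall]
      intro k l hl he
      rcases (pt_eq.1 he).2 with h | h
      · exact hj h
      · rw [(pt_eq.1 he).1] at h
        exact Set.disjoint_left.1 hd hl h
    rw [this]
    exact isOpen_univ

/-- equality sets of the two sections -/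
lemma closed_of_cHausdorff {C : (Z : Type v) → TopologicalSpace Z → Prop} {S : Set K}
    (h : CHausdorff C (Gl S)) {Z : Type v} [tz : TopologicalSpace Z] (hZ : C Z tz) {f : Z → K}
    (hf : Continuous f) : IsClosed (f ⁻¹' S) := by
  have h1 := h Z tz hZ (fun z => (pt S (f z) false, pt S (f z) true))
    (((continuous_pt S false).comp hf).prodMk ((continuous_pt S true).comp hf))
  convert h1 using 1
  ext z
  constructor
  · intro hz
    exact pt_eq.2 ⟨rfl, Or.inr hz⟩
  · intro hz
    rcases (pt_eq.1 (show pt S (f z) false = pt S (f z) true from hz)).2 with h | h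
    · exact absurd h (by decide)
    · exact h

/-- the basic fact on two extensions -/
lemma eventually_notMem [T2Space K] {S T : Set K} {L : Type} [TopologicalSpace L]
    {g h : OnePoint L → Gl S} (hg : Continuous g) (hh : Continuous h)
    (hgh : ∀ l : L, g l = h l) {x : K} (hx : x ∉ S) {i j : Bool} (hij : i ≠ j)
    (hgx : g OnePoint.infty = pt S x i) (hhx : h OnePoint.infty = pt S x j)
    (hT : IsClosed T) (hd : Disjoint T S) :
    ∀ᶠ l : L in coclosedCompact L, pr S (g l) ∉ T := by
  have key : ∀ (g : OnePoint L → Gl S) (_ : Continuous g) (i j : Bool) (_ : i ≠ j)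
      (_ : g OnePoint.infty = pt S x i), ∀ᶠ l : L in coclosedCompact L, ∀ k ∈ T, g l ≠ pt S k j := by
    intro g hg i j hij hgx
    have h1 : {q : Gl S | ∀ k ∈ T, q ≠ pt S k j} ∈ 𝓝 (g OnePoint.infty) := by
      apply (isOpen_sheet hT hd j).mem_nhds
      rw [hgx]
      intro k hk he
      rcases (pt_eq.1 he).2 with h | h
      · exact hij h
      · exact hx h
    exact (OnePoint.continuousAt_infty'.1 hg.continuousAt) h1
  filter_upwards [key g hg i j hij hgx, key h hh j i hij.symm hhx] with l h1 h2 hl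
  obtain ⟨k, m, hk⟩ := pt_surj (g l)
  have hkT : k ∈ T := by
    rw [hk, pr_pt] at hl
    exact hl
  by_cases hm : m = j
  · rw [hm] at hk
    exact h1 k hkT hk
  · have hm' : m = i := by
      revert hij hm
      cases i <;> cases j <;> cases m <;> simp
    rw [hm', hgh l] at hk
    exact h2 k hkT hk

/-- different extensions differ as expected -/
lemma ext_cases [T2Space K] {S : Set K} {L : Type} [TopologicalSpace L] [NoncompactSpace L]
    [T2Space L] {g h : OnePoint L → Gl S} (hg : Continuous g) (hh : Continuous h)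
    (hgh : ∀ l : L, g l = h l) (hne : g ≠ h) :
    ∃ x, x ∉ S ∧ ∃ i j : Bool, i ≠ j ∧ g OnePoint.infty = pt S x i ∧
      h OnePoint.infty = pt S x j := by
  have hne' : g OnePoint.infty ≠ h OnePoint.infty := by
    intro h0
    apply hne
    funext z
    induction z using OnePoint.rec with
    | infty => exact h0
    | coe l => exact hgh l
  have hpr : pr S (g OnePoint.infty) = pr S (h OnePoint.infty) := by
    have h1 : Continuous (fun z => pr S (g z)) := (continuous_pr S).comp hg
    have h2 : Continuous (fun z => pr S (h z)) := (continuous_pr S).comp hh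
    have h3 : (fun z => pr S (g z)) = (fun z => pr S (h z)) := by
      apply h1.ext_on OnePoint.denseRange_coe h2
      rintro _ ⟨l, rfl⟩
      change pr S (g l) = pr S (h l)
      rw [hgh l]
    exact congrFun h3 _
  obtain ⟨x, i, hx⟩ := pt_surj (g OnePoint.infty)
  obtain ⟨y, j, hy⟩ := pt_surj (h OnePoint.infty)
  rw [hx, hy] at hpr hne'
  have hxy : x = y := hpr
  subst hxy
  refine ⟨x, ?_, i, j, ?_, hx, hy⟩
  · intro hxS
    exact hne' (pt_eq.2 ⟨rfl, Or.inr hxS⟩)
  · intro hij
    exact hne' (pt_eq.2 ⟨rfl, Or.inl hij⟩)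

end Glue

/-! ### Discrete sets -/

section Disc
variable {K : Type} [TopologicalSpace K]

/-- countable (relatively) discrete sets -/
def CD (D : Set K) : Prop := D.Countable ∧ ∀ d ∈ D, ∃ U, IsOpen U ∧ d ∈ U ∧ U ∩ D ⊆ {d}

lemma CD.mono {D E : Set K} (hD : CD D) (hE : E ⊆ D) : CD E := by
  refine ⟨hD.1.mono hE, fun d hd => ?_⟩
  obtain ⟨U, hU, hdU, h⟩ := hD.2 d (hE hd)
  exact ⟨U, hU, hdU, (inter_subset_inter_right _ hE).trans h⟩

/-- a countable discrete set is open in its closure -/
lemma CD.isClosed_diff [T1Space K] {D : Set K} (hD : CD D) : IsClosed (closure D \ D) := by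
  choose! U hU hdU hUD using hD.2
  have h1 : closure D \ D = closure D ∩ (⋃ d ∈ D, U d)ᶜ := by
    ext x
    constructor
    · rintro ⟨hx, hxD⟩
      refine ⟨hx, fun hxU => ?_⟩
      obtain ⟨d, hd, hxd⟩ := mem_iUnion₂.1 hxU
      have hne : x ≠ d := fun h => hxD (h ▸ hd)
      obtain ⟨y, ⟨hyU, hyd⟩, hyD⟩ := mem_closure_iff.1 hx (U d ∩ {d}ᶜ)
        ((hU d hd).inter isOpen_compl_singleton) ⟨hxd, hne⟩
      exact hyd (hUD d hd ⟨hyU, hyD⟩)
    · rintro ⟨hx, hxU⟩
      exact ⟨hx, fun hxD => hxU (mem_biUnion hxD (hdU x hxD))⟩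
  rw [h1]
  exact isClosed_closure.inter (isOpen_biUnion fun d hd => hU d hd).isClosed_compl

end Disc

/-- the property of the space used below -/
def NoSeq (K : Type) [TopologicalSpace K] : Prop :=
  ∀ (D : Set K), CD D → ∀ x ∉ D, ∀ E : Set K, IsCompact E → E ⊆ insert x D → E.Finite

/-- gluing along a countable discrete set gives a UOK space -/
theorem uok_glue {K : Type} [TopologicalSpace K] [CompactSpace K] [T2Space K] (hK : NoSeq K)
    {D : Set K} (hD : CD D) : UOK (Gl D) := by
  intro L _ _ _ _ f hf g h hg hh hgf hhf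
  by_contra hne
  have hgh : ∀ l : L, g l = h l := fun l => (hgf l).trans (hhf l).symm
  obtain ⟨x, hx, i, j, hij, hgx, hhx⟩ := ext_cases hg hh hgh hne
  let φ : OnePoint L → K := fun z => pr D (g z)
  have hφ : Continuous φ := (continuous_pr D).comp hg
  have hφx : φ OnePoint.infty = x := by
    change pr D (g OnePoint.infty) = x
    rw [hgx, pr_pt]
  -- first step
  have h1 := eventually_notMem hg hh hgh hx hij hgx hhx hD.isClosed_diff
    (Set.disjoint_left.2 fun k hk hk' => hk.2 hk')
  -- extend to a neighbourhood of infinity in the compactification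
  have h2 : {z : OnePoint L | z = OnePoint.infty ∨ φ z ∉ closure D \ D} ∈ 𝓝 (OnePoint.infty) := by
    have h3 : ∀ᶠ l : L in coclosedCompact L, (l : OnePoint L) ∈
        {z : OnePoint L | z = OnePoint.infty ∨ φ z ∉ closure D \ D} := by
      filter_upwards [h1] with l hl
      exact Or.inr hl
    rw [OnePoint.nhds_infty_eq]
    exact ⟨h3, Or.inl rfl⟩
  obtain ⟨N, hN, hNc, hNsub⟩ := exists_mem_nhds_isClosed_subset h2
  have hNcomp : IsCompact N := hNc.isCompact
  have hE : IsCompact (φ '' N ∩ closure D) :=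
    (hNcomp.image hφ).inter_right isClosed_closure
  have hEsub : φ '' N ∩ closure D ⊆ insert x D := by
    rintro _ ⟨⟨z, hz, rfl⟩, hzD⟩
    rcases hNsub hz with h0 | h0
    · rw [h0, hφx]
      exact mem_insert _ _
    · right
      by_contra hcon
      exact h0 ⟨hzD, hcon⟩
  have hEfin := hK D hD x hx _ hE hEsub
  -- second step
  have h3 : N ∩ φ ⁻¹' ((φ '' N ∩ closure D) \ {x})ᶜ ∈ 𝓝 (OnePoint.infty : OnePoint L) := by
    apply Filter.inter_mem hN
    apply hφ.continuousAt
    apply IsOpen.mem_nhds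
    · exact (hEfin.subset sdiff_subset).isClosed.isOpen_compl
    · rw [hφx]
      exact fun h => h.2 rfl
  obtain ⟨M, hM, hMc, hMsub⟩ := exists_mem_nhds_isClosed_subset h3
  have hTclosed : IsClosed (φ '' M) := (hMc.isCompact.image hφ).isClosed
  have hTD : Disjoint (φ '' M) D := by
    rw [Set.disjoint_left]
    rintro _ ⟨z, hz, rfl⟩ hzD
    obtain ⟨hzN, hz2⟩ := hMsub hz
    apply hz2
    refine ⟨⟨⟨z, hzN, rfl⟩, subset_closure hzD⟩, ?_⟩
    intro h0
    have h0' : φ z = x := h0
    rw [h0'] at hzD
    exact hx hzD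
  have h4 := eventually_notMem hg hh hgh hx hij hgx hhx hTclosed hTD
  have h5 : ∀ᶠ l : L in coclosedCompact L, (l : OnePoint L) ∈ M := by
    rw [OnePoint.nhds_infty_eq] at hM
    exact hM.1
  obtain ⟨l, hl, hl'⟩ := (h4.and h5).exists
  exact hl ⟨l, hl', rfl⟩

/-! ### The finer topology -/

/-- the space with a finer topology -/
def Fine (K : Type) : Type := K

/-- the identity map -/
def toCoarse {K : Type} (x : Fine K) : K := x

/-- the identity map -/
def toFine {K : Type} (x : K) : Fine K := x

lemma toCoarse_toFine {K : Type} (x : K) : toCoarse (toFine x) = x := rfl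

lemma toCoarse_injective {K : Type} : Function.Injective (toCoarse (K := K)) := fun _ _ h => h

section Fine
variable (K : Type) [TopologicalSpace K]

instance : TopologicalSpace (Fine K) :=
  TopologicalSpace.generateFrom ({V | ∃ U : Set K, IsOpen U ∧ V = toCoarse ⁻¹' U} ∪
    {V | ∃ D : Set K, CD D ∧ V = (toCoarse ⁻¹' D)ᶜ})

variable {K}

lemma fine_isOpen {U : Set K} (hU : IsOpen U) : IsOpen (toCoarse ⁻¹' U) :=
  TopologicalSpace.isOpen_generateFrom_of_mem (Or.inl ⟨U, hU, rfl⟩)

lemma fine_isClosed {D : Set K} (hD : CD D) : IsClosed (toCoarse ⁻¹' D) := by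
  rw [← isOpen_compl_iff]
  exact TopologicalSpace.isOpen_generateFrom_of_mem (Or.inr ⟨D, hD, rfl⟩)

lemma continuous_toCoarse : Continuous (toCoarse (K := K)) := ⟨fun _ hU => fine_isOpen hU⟩

instance [T2Space K] : T2Space (Fine K) :=
  T2Space.of_injective_continuous toCoarse_injective continuous_toCoarse

/-- compact sets of the finer topology are finite -/
lemma finite_of_isCompact [T2Space K] {E : Set (Fine K)} (hE : IsCompact E) : E.Finite := by
  by_contra hinf
  -- an infinite countable discrete subset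
  let E' : Set K := toCoarse '' E
  have hE' : Infinite E' := by
    rw [Set.infinite_coe_iff]
    exact Set.Infinite.image toCoarse_injective.injOn hinf
  obtain ⟨U, hUi, hUo, hd⟩ := exists_seq_infinite_isOpen_pairwise_disjoint E'
  choose x hx using fun n => (hUi n).nonempty
  let e : ℕ → K := fun n => (x n).1
  have hei : Function.Injective e := by
    intro m n hmn
    by_contra hne
    have h1 : x m = x n := Subtype.ext hmn
    exact Set.disjoint_left.1 (hd hne) (hx m) (h1 ▸ hx n)
  have hCD : CD (range e) := by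
    refine ⟨countable_range e, ?_⟩
    rintro _ ⟨n, rfl⟩
    obtain ⟨V, hV, hVU⟩ := isOpen_induced_iff.1 (hUo n)
    refine ⟨V, hV, ?_, ?_⟩
    · have : x n ∈ Subtype.val ⁻¹' V := by rw [hVU]; exact hx n
      exact this
    · rintro _ ⟨hyV, ⟨m, rfl⟩⟩
      have h1 : x m ∈ Subtype.val ⁻¹' V := hyV
      rw [hVU] at h1
      by_contra hne
      have hmn : m ≠ n := fun h => hne (by rw [h]; rfl)
      exact Set.disjoint_left.1 (hd hmn) (hx m) h1
  have hsub : toCoarse ⁻¹' (range e) ⊆ E := by
    rintro y ⟨n, hn⟩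
    obtain ⟨z, hz, hzx⟩ := (x n).2
    have h1 : y = z := toCoarse_injective (hn.symm.trans hzx.symm)
    rw [h1]
    exact hz
  have hcomp : IsCompact (toCoarse ⁻¹' (range e)) := hE.of_isClosed_subset (fine_isClosed hCD) hsub
  have hfin : (toCoarse ⁻¹' (range e)).Finite := by
    apply hcomp.finite
    constructor
    have h6 : DiscreteTopology (toCoarse ⁻¹' (range e) : Set (Fine K)) := by
      rw [discreteTopology_iff_forall_isClosed]
      intro s
      have h7 : CD (toCoarse '' (Subtype.val '' s)) := hCD.mono (by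
        rintro _ ⟨_, ⟨y, -, rfl⟩, rfl⟩
        exact y.2)
      have h8 := (fine_isClosed h7).preimage
        (continuous_subtype_val (p := fun y => y ∈ (toCoarse ⁻¹' (range e) : Set (Fine K))))
      rw [preimage_image_eq _ toCoarse_injective] at h8
      rwa [preimage_image_eq _ Subtype.val_injective] at h8
    exact h6
  have h9 : (range e).Finite := by
    have h10 := hfin.image toCoarse
    rwa [image_preimage_eq _ (fun y => ⟨toFine y, rfl⟩)] at h10
  exact Set.infinite_range_of_injective hei h9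

end Fine

/-- the finer doubled space is UOK -/
theorem uok_fine {K : Type} [TopologicalSpace K] [T2Space K] (p : Fine K) :
    UOK (Gl ({p}ᶜ : Set (Fine K))) := by
  intro L _ _ _ _ f hf g h hg hh hgf hhf
  by_contra hne
  have hgh : ∀ l : L, g l = h l := fun l => (hgf l).trans (hhf l).symm
  obtain ⟨x, hx, i, j, hij, hgx, hhx⟩ := ext_cases hg hh hgh hne
  have hxp : x = p := by
    by_contra hcon
    exact hx hcon
  subst hxp
  let φ : OnePoint L → Fine K := fun z => pr _ (g z)
  have hφ : Continuous φ := (continuous_pr _).comp hg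
  have hφx : φ OnePoint.infty = x := by
    change pr _ (g OnePoint.infty) = x
    rw [hgx, pr_pt]
  have hfin : (range φ).Finite := finite_of_isCompact (isCompact_range hφ)
  have h1 : φ ⁻¹' (range φ \ {x})ᶜ ∈ 𝓝 (OnePoint.infty : OnePoint L) := by
    apply hφ.continuousAt
    apply IsOpen.mem_nhds
    · exact (hfin.subset sdiff_subset).isClosed.isOpen_compl
    · rw [hφx]
      exact fun h => h.2 rfl
  have h2 : ∀ᶠ l : L in coclosedCompact L, (l : OnePoint L) ∈ φ ⁻¹' (range φ \ {x})ᶜ := by
    rw [OnePoint.nhds_infty_eq] at h1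
    exact h1.1
  have h3 := eventually_notMem hg hh hgh hx hij hgx hhx (isClosed_singleton (x := x))
    (Set.disjoint_left.2 fun k hk hk' => hk' hk)
  obtain ⟨l, hl, hl'⟩ := (h2.and h3).exists
  apply hl
  exact ⟨⟨_, rfl⟩, hl'⟩

/-- the identity map between the two doubled spaces -/
def toFineGl {K : Type} (p : K) : Gl ({p}ᶜ : Set K) → Gl ({toFine p}ᶜ : Set (Fine K)) :=
  Quotient.lift (fun x : K × Bool => pt _ (toFine x.1) x.2) (by
    rintro a b ⟨h1, h2⟩
    refine pt_eq.2 ⟨congrArg toFine h1, h2.imp id fun h h' => h ?_⟩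
    exact h')

lemma toFineGl_pt {K : Type} (p k : K) (i : Bool) :
    toFineGl p (pt _ k i) = pt _ (toFine k) i := rfl

lemma toFineGl_injective {K : Type} (p : K) : Function.Injective (toFineGl p) := by
  intro a b h
  obtain ⟨k, i, rfl⟩ := pt_surj a
  obtain ⟨l, j, rfl⟩ := pt_surj b
  rw [toFineGl_pt, toFineGl_pt, pt_eq] at h
  exact pt_eq.2 ⟨h.1, h.2.imp id fun h h' => h h'⟩

/-- the doubled space is not UOK -/
theorem not_uok {K : Type} [TopologicalSpace K] [CompactSpace K] [T2Space K] (p : K)
    (hp : ¬ IsOpen ({p} : Set K)) : ¬ UOK (Gl {p}ᶜ) := by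
  intro h
  let L : Type := ({p}ᶜ : Set K)
  have hopen : IsOpen ({p}ᶜ : Set K) := isOpen_compl_singleton
  have h1 : LocallyCompactSpace ({p}ᶜ : Set K) := hopen.locallyCompactSpace
  have h2 : NoncompactSpace ({p}ᶜ : Set K) := by
    rw [← not_compactSpace_iff, ← isCompact_iff_compactSpace]
    intro hc
    apply hp
    have := hc.isClosed.isOpen_compl
    rwa [compl_compl] at this
  have hval : Tendsto (Subtype.val : ({p}ᶜ : Set K) → K) (coclosedCompact _) (𝓝 p) := by
    intro U hU
    obtain ⟨V, hVU, hV, hpV⟩ := mem_nhds_iff.1 hU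
    rw [mem_map, mem_coclosedCompact_iff]
    have h3 : IsCompact (Subtype.val ⁻¹' Vᶜ : Set ({p}ᶜ : Set K)) := by
      rw [Subtype.isCompact_iff, image_preimage_eq_of_subset]
      · exact hV.isClosed_compl.isCompact
      · rintro x hx
        refine ⟨⟨x, ?_⟩, rfl⟩
        intro hxp
        rw [hxp] at hx
        exact hx hpV
    apply h3.of_isClosed_subset isClosed_closure
    apply closure_minimal
    · intro x hx hxV
      exact hx (hVU hxV)
    · exact hV.isClosed_compl.preimage continuous_subtype_val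
  have key : ∀ i : Bool, Continuous (fun z : OnePoint ({p}ᶜ : Set K) =>
      OnePoint.elim z (pt {p}ᶜ p i) (fun l => pt {p}ᶜ l.1 i)) := by
    intro i
    rw [OnePoint.continuous_iff]
    refine ⟨?_, (continuous_pt _ i).comp continuous_subtype_val⟩
    exact ((continuous_pt _ i).tendsto p).comp hval
  have h4 := h ({p}ᶜ : Set K) (fun l => pt {p}ᶜ l.1 false)
    ((continuous_pt _ false).comp continuous_subtype_val) _ _ (key false) (key true)
    (fun l => rfl) (fun l => pt_eq.2 ⟨rfl, Or.inr l.2⟩)
  have h5 := congrFun h4 OnePoint.infty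
  rcases (pt_eq.1 h5).2 with h6 | h6
  · exact absurd h6 (by decide)
  · exact h6 rfl

/-- maps to the doubled space stay continuous for the finer topology -/
theorem continuous_fine {K : Type} [TopologicalSpace K] [T1Space K] (p : K) {Z : Type v}
    [TopologicalSpace Z] {u : Z → Gl ({p}ᶜ : Set K)} (hu : Continuous u)
    (hD : ∀ D : Set K, CD D → IsClosed ((fun z => pr _ (u z)) ⁻¹' D)) :
    Continuous (fun z => toFineGl p (u z)) := by
  let φ : Z → Fine K := fun z => toFine (pr _ (u z))
  have hφ : Continuous φ := by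
    rw [continuous_generateFrom_iff]
    rintro s (⟨U, hU, rfl⟩ | ⟨D, hDD, rfl⟩)
    · exact IsOpen.preimage ((continuous_pr _).comp hu) hU
    · exact (hD D hDD).isOpen_compl
  refine ⟨fun V hV => ?_⟩
  have hV' := isOpen_iff.1 hV
  have h1 : (fun z => toFineGl p (u z)) ⁻¹' V =
      ⋃ i : Bool, (u ⁻¹' {q | ∀ k ∈ ({p} : Set K), q ≠ pt _ k (!i)} ∩
      φ ⁻¹' {k | pt {toFine p}ᶜ k i ∈ V}) := by
    ext z
    obtain ⟨k, i, hk⟩ := pt_surj (u z)
    have hφz : φ z = toFine k := by
      change toFine (pr _ (u z)) = toFine k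
      rw [hk, pr_pt]
    constructor
    · intro hz
      have hz' : toFineGl p (u z) ∈ V := hz
      rw [mem_iUnion]
      refine ⟨i, ?_, ?_⟩
      · intro l hl he
        rw [hk] at he
        rcases (pt_eq.1 he).2 with h2 | h2
        · cases i <;> simp at h2
        · apply h2
          rw [(pt_eq.1 he).1]
          exact hl
      · change pt {toFine p}ᶜ (φ z) i ∈ V
        rw [hφz]
        rw [hk, toFineGl_pt] at hz'
        exact hz'
    · intro hz
      obtain ⟨j, hz1, hz2⟩ := mem_iUnion.1 hz
      change toFineGl p (u z) ∈ V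
      have hz2' : pt {toFine p}ᶜ (φ z) j ∈ V := hz2
      rw [hφz] at hz2'
      have h3 : u z = pt {p}ᶜ k j := by
        rw [hk, pt_eq]
        refine ⟨rfl, ?_⟩
        by_cases hij : i = j
        · exact Or.inl hij
        · right
          intro hkp
          apply hz1 k hkp
          rw [hk, pt_eq]
          refine ⟨rfl, Or.inl ?_⟩
          revert hij
          cases i <;> cases j <;> simp
      rw [h3, toFineGl_pt]
      exact hz2'
  rw [h1]
  refine isOpen_iUnion fun i => ?_
  refine IsOpen.inter ?_ ((hV' i).preimage hφ)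
  apply IsOpen.preimage hu
  have hdis : Disjoint ({p} : Set K) ({p}ᶜ : Set K) := Set.disjoint_left.2 fun k hk hk' => hk' hk
  exact isOpen_sheet isClosed_singleton hdis _

/-- the main argument -/
theorem main {K : Type} [TopologicalSpace K] [CompactSpace K] [T2Space K] (hK : NoSeq K) (p : K)
    (hp : ¬ IsOpen ({p} : Set K)) (C : (Z : Type v) → TopologicalSpace Z → Prop)
    (hC : ∀ (X : Type) (_ : TopologicalSpace X), CHausdorff C X ↔ UOK X) : False := by
  apply not_uok p hp
  rw [← hC]
  intro Z tz hZ w hw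
  have hclosed : ∀ f : Z → K, Continuous f → ∀ D : Set K, CD D → IsClosed (f ⁻¹' D) := by
    intro f hf D hD
    exact closed_of_cHausdorff ((hC _ _).2 (uok_glue hK hD)) hZ hf
  have h1 : Continuous (fun z => (w z).1) := continuous_fst.comp hw
  have h2 : Continuous (fun z => (w z).2) := continuous_snd.comp hw
  have h1' := continuous_fine p h1 (fun D hD => hclosed _ ((continuous_pr _).comp h1) D hD)
  have h2' := continuous_fine p h2 (fun D hD => hclosed _ ((continuous_pr _).comp h2) D hD)
  have h3 : CHausdorff C (Gl ({toFine p}ᶜ : Set (Fine K))) := (hC _ _).2 (uok_fine (toFine p))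
  have h4 := h3 Z tz hZ _ (h1'.prodMk h2')
  convert h4 using 1
  ext z
  constructor
  · intro hz
    have hz' : (w z).1 = (w z).2 := hz
    change toFineGl p (w z).1 = toFineGl p (w z).2
    rw [hz']
  · intro hz
    exact toFineGl_injective p hz

/-! ### The Stone–Čech compactification of the natural numbers -/

/-- no nontrivial convergent sequences of ultrafilters -/
theorem no_seq {x : Ultrafilter ℕ} {e : ℕ → Ultrafilter ℕ} (hne : ∀ n, e n ≠ x)
    (hlim : Tendsto e atTop (𝓝 x)) : False := by
  have hmem : ∀ s : Set ℕ, s ∈ x → ∀ᶠ n in atTop, s ∈ e n := by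
    intro s hs
    exact hlim ((ultrafilter_isOpen_basic s).mem_nhds hs)
  have hB : ∀ n, ∃ B : Set ℕ, B ∈ e n ∧ B ∉ x := by
    intro n
    by_contra hcon
    push Not at hcon
    apply hne n
    exact (Ultrafilter.eq_of_le (fun s hs => by
      by_contra h
      have h1 : sᶜ ∈ e n := Ultrafilter.compl_mem_iff_notMem.2 h
      have h2 := hcon _ h1
      exact Ultrafilter.compl_notMem_iff.2 hs h2))
  choose B hBe hBx using hB
  have hN : ∀ n, ∃ N, ∀ m ≥ N, B n ∉ e m := by
    intro n
    have h1 : (B n)ᶜ ∈ x := Ultrafilter.compl_mem_iff_notMem.2 (hBx n)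
    obtain ⟨N, hN⟩ := Filter.eventually_atTop.1 (hmem _ h1)
    exact ⟨N, fun m hm => Ultrafilter.compl_mem_iff_notMem.1 (hN m hm)⟩
  choose N hN using hN
  let φ : ℕ → ℕ := fun k => Nat.rec 0 (fun _ a => max (a + 1) (N a)) k
  have hφs : ∀ k, φ (k + 1) = max (φ k + 1) (N (φ k)) := fun k => rfl
  have hφ : StrictMono φ := by
    apply strictMono_nat_of_lt_succ
    intro k
    rw [hφs]
    exact lt_of_lt_of_le (Nat.lt_succ_self _) (le_max_left _ _)
  have hφB : ∀ j k, j < k → B (φ j) ∉ e (φ k) := by
    intro j k hjk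
    apply hN
    have h1 : φ (j + 1) ≤ φ k := hφ.monotone hjk
    rw [hφs] at h1
    exact (le_max_right _ _).trans h1
  let A : ℕ → Set ℕ := fun k => B (φ k) \ ⋃ j ∈ Set.Iio k, B (φ j)
  have hA : ∀ k, A k ∈ e (φ k) := by
    intro k
    have h1 : (⋃ j ∈ Set.Iio k, B (φ j)) ∉ e (φ k) := by
      rw [Ultrafilter.finite_biUnion_mem_iff (Set.finite_Iio k)]
      rintro ⟨j, hj, hj'⟩
      exact hφB j k hj hj'
    exact Filter.inter_mem (hBe _) (Ultrafilter.compl_mem_iff_notMem.2 h1)
  have hdisj : ∀ j k, j ≠ k → Disjoint (A j) (A k) := by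
    have h0 : ∀ j k, j < k → Disjoint (A j) (A k) := by
      intro j k hjk
      rw [Set.disjoint_left]
      rintro a ⟨ha, -⟩ ⟨-, ha'⟩
      exact ha' (mem_biUnion hjk ha)
    intro j k hjk
    rcases lt_or_gt_of_ne hjk with h | h
    · exact h0 j k h
    · exact (h0 k j h).symm
  let Ev : Set ℕ := ⋃ k, A (2 * k)
  have hEv1 : ∀ k, Ev ∈ e (φ (2 * k)) := fun k =>
    Filter.mem_of_superset (hA (2 * k)) (subset_iUnion (fun k => A (2 * k)) k)
  have hEv2 : ∀ k, Ev ∉ e (φ (2 * k + 1)) := by
    intro k hk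
    have h1 : A (2 * k + 1) ∩ Ev ∈ e (φ (2 * k + 1)) :=
      Filter.inter_mem (f := (e (φ (2 * k + 1)) : Filter ℕ)) (hA (2 * k + 1)) hk
    have h2 : A (2 * k + 1) ∩ Ev = ∅ := by
      rw [← Set.disjoint_iff_inter_eq_empty, Set.disjoint_iUnion_right]
      intro j
      have hne : 2 * k + 1 ≠ 2 * j := by omega
      exact hdisj _ _ hne
    rw [h2] at h1
    exact Ultrafilter.empty_notMem h1
  by_cases hx : Ev ∈ x
  · obtain ⟨M, hM⟩ := Filter.eventually_atTop.1 (hmem _ hx)
    have h1 : M ≤ φ (2 * M + 1) := (by omega : M ≤ 2 * M + 1).trans (hφ.id_le _)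
    exact hEv2 M (hM _ h1)
  · have hx' : Evᶜ ∈ x := Ultrafilter.compl_mem_iff_notMem.2 hx
    obtain ⟨M, hM⟩ := Filter.eventually_atTop.1 (hmem _ hx')
    have h1 : M ≤ φ (2 * M) := (by omega : M ≤ 2 * M).trans (hφ.id_le _)
    exact Ultrafilter.compl_mem_iff_notMem.1 (hM _ h1) (hEv1 M)

theorem noSeq_ultrafilter : NoSeq (Ultrafilter ℕ) := by
  intro D hD x hx E hE hED
  by_contra hinf
  have hinf' : (E \ {x}).Infinite := Set.Infinite.sdiff hinf (Set.finite_singleton x)
  let e := hinf'.natEmbedding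
  have heD : ∀ n, (e n).1 ∈ D := by
    intro n
    have h1 := (e n).2
    exact (hED h1.1).resolve_left h1.2
  apply no_seq (x := x) (e := fun n => (e n).1) (fun n h => hx (h ▸ heD n))
  intro U hU
  obtain ⟨V, hVU, hV, hxV⟩ := mem_nhds_iff.1 hU
  have hcomp : IsCompact (E \ V) := hE.diff hV
  have hsub : E \ V ⊆ D := by
    rintro y ⟨hy, hyV⟩
    rcases hED hy with h | h
    · rw [h] at hyV
      exact absurd hxV hyV
    · exact h
  have hfin : (E \ V).Finite := by
    apply hcomp.finite
    constructor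
    have h6 : DiscreteTopology (E \ V : Set (Ultrafilter ℕ)) := by
      rw [discreteTopology_iff_isOpen_singleton]
      intro y
      obtain ⟨W, hW, hyW, hWD⟩ := hD.2 y.1 (hsub y.2)
      have h7 : Subtype.val ⁻¹' W = ({y} : Set (E \ V : Set (Ultrafilter ℕ))) := by
        ext z
        constructor
        · intro hz
          exact Subtype.ext (hWD ⟨hz, hsub z.2⟩)
        · rintro rfl
          exact hyW
      rw [← h7]
      exact hW.preimage continuous_subtype_val
    exact h6
  rw [mem_map]
  have h8 : {n | (e n).1 ∈ U}ᶜ.Finite := by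
    have h9 : {n | (e n).1 ∈ U}ᶜ ⊆ (fun n => (e n).1) ⁻¹' (E \ V) := by
      intro n hn
      exact ⟨(e n).2.1, fun h => hn (hVU h)⟩
    apply Set.Finite.subset _ h9
    apply hfin.preimage
    intro m _ n _ h
    exact e.injective (Subtype.ext h)
  have h10 : {n | (e n).1 ∈ U} ∈ (Filter.cofinite : Filter ℕ) := h8
  rw [Nat.cofinite_eq_atTop] at h10
  exact h10

theorem exists_nonisolated : ∃ p : Ultrafilter ℕ, ¬ IsOpen ({p} : Set (Ultrafilter ℕ)) := by
  by_contra hcon
  push Not at hcon
  have h1 : DiscreteTopology (Ultrafilter ℕ) := discreteTopology_iff_isOpen_singleton.2 hcon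
  have h2 : Finite (Ultrafilter ℕ) := finite_of_compact_of_discrete
  have h3 : Finite ℕ := Finite.of_injective (pure : ℕ → Ultrafilter ℕ) Ultrafilter.pure_injective
  exact not_finite ℕ

end Pool.Agent.R818.Uok
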